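import Mathlib
import Pool.Agent.helper51.FC.GDense

set_option autoImplicit false

universe u

namespace Pool.Agent.Results.MP_fc6768_gt.GroupwiseDensity

open Cardinal Pool.Agent.helper71.Sel Pool.Agent.helper51.FC

/-- Let `κ ≤ pr(S₁(Γ, Ω))` be regular, `X` a `κ`-fin-unbounded set and `Y` an infinite Tychonoff
space with the gamma-property. If `Y` is perfectly normal (for instance metrizable), or
`κ ≤ cov(M)`, or `κ ≤ 𝔤`, or there is `μ < κ` with `cof([μ]^ω) ≤ μ` such that all metrizable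
continuous images of `Y` have cardinality at most `μ`, then `(X ∪ Fin) × Y` satisfies
`S₁(Γ, Ω)`. If `𝔡 ≤ max(cov(M), 𝔤)`, this is true for all `κ`, `X` and `Y`. -/
theorem result :
    (∀ κ : Cardinal.{0}, κ.IsRegular → κ ≤ prS1 →
      ∀ X : Set (ℕ → Bool), FinUnbounded κ X →
        ∀ (Y : Type u) [TopologicalSpace Y] [T35Space Y] [Infinite Y], HasGammaProperty Y →
          (PerfectlyNormalSpace Y ∨ κ ≤ covM ∨ κ ≤ gNum ∨
            ∃ μ : Cardinal.{0}, μ < κ ∧ CtblCofinal μ ∧ MetrizableImagesLE Y μ) →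
          S1GammaOmega ((X ∪ FinSets : Set (ℕ → Bool)) × Y)) ∧
    (dNum ≤ max covM gNum → ∀ κ : Cardinal.{0}, κ.IsRegular → κ ≤ prS1 →
      ∀ X : Set (ℕ → Bool), FinUnbounded κ X →
        ∀ (Y : Type u) [TopologicalSpace Y] [T35Space Y] [Infinite Y], HasGammaProperty Y →
          S1GammaOmega ((X ∪ FinSets : Set (ℕ → Bool)) × Y)) := by
  constructor
  · intro κ hκ hpr X hX Y _ _ _ hY h
    exact main_group hκ hpr hX hY h
  · intro hd κ hκ hpr X hX Y _ _ _ hY
    exact main_full hd hκ hpr hX hY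

end Pool.Agent.Results.MP_fc6768_gt.GroupwiseDensity
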